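import Pool.Agent.Helper37.RG3.Goals

/-! Packet HAM of MP_0c2bb8_co: a Hamiltonian cycle in five vertices. -/

namespace Pool.Agent.Helper85.RG3

open Finset Pool.Agent.Helper37.RG3

set_option maxRecDepth 100000 in
theorem bool : ∀ b01 b02 b03 b04 b12 b13 b14 b23 b24 b34 : Bool,
    ((b01 && b12 && b23 && b34 && b04) ||
    ((b01 && b12 && b24 && b34 && b03) ||
    ((b01 && b13 && b23 && b24 && b04) ||
    ((b01 && b13 && b34 && b24 && b02) ||
    ((b01 && b14 && b24 && b23 && b03) ||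
    ((b01 && b14 && b34 && b23 && b02) ||
    ((b02 && b12 && b13 && b34 && b04) ||
    ((b02 && b12 && b14 && b34 && b03) ||
    ((b02 && b23 && b13 && b14 && b04) ||
    ((b02 && b24 && b14 && b13 && b03) ||
    ((b03 && b13 && b12 && b24 && b04) ||
    ((b03 && b23 && b12 && b14 && b04) ||
    ((!b01 && !b02 && !b12) ||
    ((!b01 && !b03 && !b13) ||
    ((!b01 && !b04 && !b14) ||
    ((!b02 && !b03 && !b23) ||
    ((!b02 && !b04 && !b24) ||
    ((!b03 && !b04 && !b34) ||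
    ((!b12 && !b13 && !b23) ||
    ((!b12 && !b14 && !b24) ||
    ((!b13 && !b14 && !b34) ||
    ((!b23 && !b24 && !b34) ||
    ((!b02 && !b03 && !b04) ||
    ((!b01 && !b03 && !b04) ||
    ((!b01 && !b02 && !b04) ||
    ((!b01 && !b02 && !b03) ||
    ((!b12 && !b13 && !b14) ||
    ((!b01 && !b13 && !b14) ||
    ((!b01 && !b12 && !b14) ||
    ((!b01 && !b12 && !b13) ||
    ((!b12 && !b23 && !b24) ||
    ((!b02 && !b23 && !b24) ||
    ((!b02 && !b12 && !b24) ||
    ((!b02 && !b12 && !b23) ||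
    ((!b13 && !b23 && !b34) ||
    ((!b03 && !b23 && !b34) ||
    ((!b03 && !b13 && !b34) ||
    ((!b03 && !b13 && !b23) ||
    ((!b14 && !b24 && !b34) ||
    ((!b04 && !b24 && !b34) ||
    ((!b04 && !b14 && !b34) ||
    ((!b04 && !b14 && !b24) ||
    ((!b13 && !b14 && !b23 && !b24) ||
    ((!b12 && !b14 && !b23 && !b34) ||
    ((!b12 && !b13 && !b24 && !b34) ||
    ((!b03 && !b04 && !b23 && !b24) ||
    ((!b02 && !b04 && !b23 && !b34) ||
    ((!b02 && !b03 && !b24 && !b34) ||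
    ((!b03 && !b04 && !b13 && !b14) ||
    ((!b01 && !b04 && !b13 && !b34) ||
    ((!b01 && !b03 && !b14 && !b34) ||
    ((!b02 && !b04 && !b12 && !b14) ||
    ((!b01 && !b04 && !b12 && !b24) ||
    ((!b01 && !b02 && !b14 && !b24) ||
    ((!b02 && !b03 && !b12 && !b13) ||
    ((!b01 && !b03 && !b12 && !b23) ||
    ((!b01 && !b02 && !b13 && !b23)))))))))))))))))))))))))))))))))))))))))))))))))))))))))) = true := by
  decide

/-- The weighted version. -/
theorem comb (W : Fin 5 → Fin 5 → ℕ) (r : ℕ) (hs : ∀ i j, W i j = W j i) (hi : ∀ i, W i i = 0)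
    (ht : ∑ i, ∑ j, W i j + (r + 2) = 5 * r) (hr : ∀ i, ∑ j, W i j + 1 ≤ r)
    (h3 : ∀ a b c, a < b → b < c → 2 * (W a b + W a c + W b c) + (r + 2) ≤ 3 * r) :
    ∃ σ : Fin 5 → Fin 5, Function.Injective σ ∧ ∀ i, W (σ i) (σ (i + 1)) ≠ 0 := by
  have key := bool (decide (W 0 1 ≠ 0)) (decide (W 0 2 ≠ 0)) (decide (W 0 3 ≠ 0)) (decide (W 0 4 ≠ 0)) (decide (W 1 2 ≠ 0)) (decide (W 1 3 ≠ 0)) (decide (W 1 4 ≠ 0)) (decide (W 2 3 ≠ 0)) (decide (W 2 4 ≠ 0)) (decide (W 3 4 ≠ 0))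
  simp only [Bool.or_eq_true, Bool.and_eq_true, decide_eq_true_eq, Bool.not_eq_true',
    decide_eq_false_iff_not, ne_eq, not_not] at key
  have s10 : W 1 0 = W 0 1 := hs 1 0
  have s20 : W 2 0 = W 0 2 := hs 2 0
  have s21 : W 2 1 = W 1 2 := hs 2 1
  have s30 : W 3 0 = W 0 3 := hs 3 0
  have s31 : W 3 1 = W 1 3 := hs 3 1
  have s32 : W 3 2 = W 2 3 := hs 3 2
  have s40 : W 4 0 = W 0 4 := hs 4 0
  have s41 : W 4 1 = W 1 4 := hs 4 1
  have s42 : W 4 2 = W 2 4 := hs 4 2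
  have s43 : W 4 3 = W 3 4 := hs 4 3
  have hr0 := hr 0
  have hr1 := hr 1
  have hr2 := hr 2
  have hr3 := hr 3
  have hr4 := hr 4
  simp only [Fin.sum_univ_five, hi, s10, s20, s21, s30, s31, s32, s40, s41, s42, s43] at ht hr0 hr1 hr2 hr3 hr4
  have t012 := h3 0 1 2 (by decide) (by decide)
  have t013 := h3 0 1 3 (by decide) (by decide)
  have t014 := h3 0 1 4 (by decide) (by decide)
  have t023 := h3 0 2 3 (by decide) (by decide)
  have t024 := h3 0 2 4 (by decide) (by decide)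
  have t034 := h3 0 3 4 (by decide) (by decide)
  have t123 := h3 1 2 3 (by decide) (by decide)
  have t124 := h3 1 2 4 (by decide) (by decide)
  have t134 := h3 1 3 4 (by decide) (by decide)
  have t234 := h3 2 3 4 (by decide) (by decide)
  rcases key with h | h | h | h | h | h | h | h | h | h | h | h | h | h | h | h | h | h | h | h | h | h | h | h | h | h | h | h | h | h | h | h | h | h | h | h | h | h | h | h | h | h | h | h | h | h | h | h | h | h | h | h | h | h | h | h | h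
  · obtain ⟨⟨⟨⟨h0, h1⟩, h2⟩, h3'⟩, h4⟩ := h
    refine ⟨![0, 1, 2, 3, 4], by decide, fun i => ?_⟩
    fin_cases i
    exacts [h0, h1, h2, h3', (fun q => h4 ((hs _ _).trans q))]
  · obtain ⟨⟨⟨⟨h0, h1⟩, h2⟩, h3'⟩, h4⟩ := h
    refine ⟨![0, 1, 2, 4, 3], by decide, fun i => ?_⟩
    fin_cases i
    exacts [h0, h1, h2, (fun q => h3' ((hs _ _).trans q)), (fun q => h4 ((hs _ _).trans q))]
  · obtain ⟨⟨⟨⟨h0, h1⟩, h2⟩, h3'⟩, h4⟩ := h
    refine ⟨![0, 1, 3, 2, 4], by decide, fun i => ?_⟩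
    fin_cases i
    exacts [h0, h1, (fun q => h2 ((hs _ _).trans q)), h3', (fun q => h4 ((hs _ _).trans q))]
  · obtain ⟨⟨⟨⟨h0, h1⟩, h2⟩, h3'⟩, h4⟩ := h
    refine ⟨![0, 1, 3, 4, 2], by decide, fun i => ?_⟩
    fin_cases i
    exacts [h0, h1, h2, (fun q => h3' ((hs _ _).trans q)), (fun q => h4 ((hs _ _).trans q))]
  · obtain ⟨⟨⟨⟨h0, h1⟩, h2⟩, h3'⟩, h4⟩ := h
    refine ⟨![0, 1, 4, 2, 3], by decide, fun i => ?_⟩
    fin_cases i
    exacts [h0, h1, (fun q => h2 ((hs _ _).trans q)), h3', (fun q => h4 ((hs _ _).trans q))]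
  · obtain ⟨⟨⟨⟨h0, h1⟩, h2⟩, h3'⟩, h4⟩ := h
    refine ⟨![0, 1, 4, 3, 2], by decide, fun i => ?_⟩
    fin_cases i
    exacts [h0, h1, (fun q => h2 ((hs _ _).trans q)), (fun q => h3' ((hs _ _).trans q)), (fun q => h4 ((hs _ _).trans q))]
  · obtain ⟨⟨⟨⟨h0, h1⟩, h2⟩, h3'⟩, h4⟩ := h
    refine ⟨![0, 2, 1, 3, 4], by decide, fun i => ?_⟩
    fin_cases i
    exacts [h0, (fun q => h1 ((hs _ _).trans q)), h2, h3', (fun q => h4 ((hs _ _).trans q))]
  · obtain ⟨⟨⟨⟨h0, h1⟩, h2⟩, h3'⟩, h4⟩ := h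
    refine ⟨![0, 2, 1, 4, 3], by decide, fun i => ?_⟩
    fin_cases i
    exacts [h0, (fun q => h1 ((hs _ _).trans q)), h2, (fun q => h3' ((hs _ _).trans q)), (fun q => h4 ((hs _ _).trans q))]
  · obtain ⟨⟨⟨⟨h0, h1⟩, h2⟩, h3'⟩, h4⟩ := h
    refine ⟨![0, 2, 3, 1, 4], by decide, fun i => ?_⟩
    fin_cases i
    exacts [h0, h1, (fun q => h2 ((hs _ _).trans q)), h3', (fun q => h4 ((hs _ _).trans q))]
  · obtain ⟨⟨⟨⟨h0, h1⟩, h2⟩, h3'⟩, h4⟩ := h
    refine ⟨![0, 2, 4, 1, 3], by decide, fun i => ?_⟩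
    fin_cases i
    exacts [h0, h1, (fun q => h2 ((hs _ _).trans q)), h3', (fun q => h4 ((hs _ _).trans q))]
  · obtain ⟨⟨⟨⟨h0, h1⟩, h2⟩, h3'⟩, h4⟩ := h
    refine ⟨![0, 3, 1, 2, 4], by decide, fun i => ?_⟩
    fin_cases i
    exacts [h0, (fun q => h1 ((hs _ _).trans q)), h2, h3', (fun q => h4 ((hs _ _).trans q))]
  · obtain ⟨⟨⟨⟨h0, h1⟩, h2⟩, h3'⟩, h4⟩ := h
    refine ⟨![0, 3, 2, 1, 4], by decide, fun i => ?_⟩
    fin_cases i
    exacts [h0, (fun q => h1 ((hs _ _).trans q)), (fun q => h2 ((hs _ _).trans q)), h3', (fun q => h4 ((hs _ _).trans q))]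
  · exfalso; omega
  · exfalso; omega
  · exfalso; omega
  · exfalso; omega
  · exfalso; omega
  · exfalso; omega
  · exfalso; omega
  · exfalso; omega
  · exfalso; omega
  · exfalso; omega
  · exfalso; omega
  · exfalso; omega
  · exfalso; omega
  · exfalso; omega
  · exfalso; omega
  · exfalso; omega
  · exfalso; omega
  · exfalso; omega
  · exfalso; omega
  · exfalso; omega
  · exfalso; omega
  · exfalso; omega
  · exfalso; omega
  · exfalso; omega
  · exfalso; omega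
  · exfalso; omega
  · exfalso; omega
  · exfalso; omega
  · exfalso; omega
  · exfalso; omega
  · exfalso; omega
  · exfalso; omega
  · exfalso; omega
  · exfalso; omega
  · exfalso; omega
  · exfalso; omega
  · exfalso; omega
  · exfalso; omega
  · exfalso; omega
  · exfalso; omega
  · exfalso; omega
  · exfalso; omega
  · exfalso; omega
  · exfalso; omega
  · exfalso; omega

/-- HAM. -/
theorem ham : HAM := by
  intro V _ _ U S w r h hSU h5 hct htri hout
  let e : S ≃ Fin 5 := S.equivFinOfCardEq h5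
  let s : Fin 5 → V := fun i => (e.symm i : V)
  have hsinj : Function.Injective s := fun i j hij => e.symm.injective (Subtype.ext hij)
  have hsS : ∀ i, s i ∈ S := fun i => (e.symm i).2
  have hSs : S = univ.map ⟨s, hsinj⟩ := by
    ext v
    simp only [mem_map, mem_univ, true_and, Function.Embedding.coeFn_mk]
    constructor
    · intro hv
      exact ⟨e ⟨v, hv⟩, by simp [s]⟩
    · rintro ⟨i, rfl⟩
      exact hsS i
  have hsum : ∀ f : V → ℕ, ∑ v ∈ S, f v = ∑ i, f (s i) := by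
    intro f
    rw [hSs, sum_map]
    rfl
  have main := comb (fun i j => w (s i) (s j)) r (fun i j => h.symm _ _) (fun i => h.irr _)
  suffices hall : (∑ i, ∑ j, w (s i) (s j) + (r + 2) = 5 * r) ∧
      (∀ i, ∑ j, w (s i) (s j) + 1 ≤ r) ∧ (∀ a b c : Fin 5, a < b → b < c →
        2 * (w (s a) (s b) + w (s a) (s c) + w (s b) (s c)) + (r + 2) ≤ 3 * r) by
    obtain ⟨σ, hσ, hW⟩ := main hall.1 hall.2.1 hall.2.2
    exact ⟨fun i => s (σ i), fun i j hij => hσ (hsinj hij), fun i => hsS _, hW⟩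
  refine ⟨?_, ?_, ?_⟩
  · have h1 := h.deg_sum hSU
    rw [hct, h5] at h1
    have h2 : bt w S S = ∑ i, ∑ j, w (s i) (s j) := by
      unfold bt
      rw [hsum]
      exact sum_congr rfl fun i _ => hsum _
    rw [h2] at h1
    rw [h1, mul_comm]
  · intro i
    obtain ⟨v, hv, hv0⟩ := hout (s i) (hsS i)
    have h1 := h.deg (s i) (hSU (hsS i))
    have h2 : ∑ u ∈ insert v S, w (s i) u ≤ ∑ u, w (s i) u :=
      sum_le_sum_of_subset (subset_univ _)
    rw [sum_insert hv, hsum, h1] at h2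
    omega
  · intro a b c hab hbc
    have hac : a < c := hab.trans hbc
    have n1 : s a ≠ s b := fun q => hab.ne (hsinj q)
    have n2 : s a ≠ s c := fun q => hac.ne (hsinj q)
    have n3 : s b ≠ s c := fun q => hbc.ne (hsinj q)
    have hTS : ({s a, s b, s c} : Finset V) ⊆ S := by
      intro v hv
      simp only [mem_insert, mem_singleton] at hv
      rcases hv with rfl | rfl | rfl
      exacts [hsS a, hsS b, hsS c]
    have hT3 : ({s a, s b, s c} : Finset V).card = 3 := card_eq_three.2 ⟨_, _, _, n1, n2, n3, rfl⟩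
    have h1 := h.deg_sum (hTS.trans hSU)
    have h2 := htri _ hTS hT3
    rw [hT3] at h1
    have hin : ∀ f : V → ℕ, ∑ v ∈ ({s a, s b, s c} : Finset V), f v =
        f (s a) + f (s b) + f (s c) := by
      intro f
      rw [sum_insert (by simp [n1, n2]), sum_insert (by simp [n3]), sum_singleton]
      ring
    have h3 : bt w {s a, s b, s c} {s a, s b, s c} =
        2 * (w (s a) (s b) + w (s a) (s c) + w (s b) (s c)) := by
      unfold bt
      rw [hin, hin, hin, hin, h.irr, h.irr, h.irr, h.symm (s b) (s a), h.symm (s c) (s a),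
        h.symm (s c) (s b)]
      ring
    rw [h3] at h1
    omega

end Pool.Agent.Helper85.RG3
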